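import Mathlib

set_option autoImplicit false

/-! Locally soluble groups: basic closure properties. -/

namespace Pool.Agent.H88R2.EC

open Subgroup

open scoped commutatorElement

/-- iterated commutator subgroups -/
def dd {G : Type*} [Group G] (K : Subgroup G) : ℕ → Subgroup G
  | 0 => K
  | n + 1 => ⁅dd K n, dd K n⁆

section

variable {G H : Type*} [Group G] [Group H]

lemma dd_mono {K L : Subgroup G} (h : K ≤ L) (n : ℕ) : dd K n ≤ dd L n := by
  induction n with
  | zero => exact h
  | succ n ih => exact Subgroup.commutator_mono ih ih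

lemma dd_map (f : G →* H) (K : Subgroup G) (n : ℕ) : (dd K n).map f = dd (K.map f) n := by
  induction n with
  | zero => rfl
  | succ n ih => simp only [dd, Subgroup.map_commutator, ih]

lemma dd_add (K : Subgroup G) (n m : ℕ) : dd (dd K n) m = dd K (n + m) := by
  induction m with
  | zero => rfl
  | succ m ih => rw [← Nat.add_assoc]; simp only [dd, ih]

lemma dd_top (n : ℕ) : dd (⊤ : Subgroup G) n = derivedSeries G n := by
  induction n with
  | zero => rfl
  | succ n ih => simp only [dd, ih, derivedSeries_succ]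

lemma solvable_iff (K : Subgroup G) : Group.IsSolvable K ↔ ∃ n, dd K n = ⊥ := by
  have key : ∀ n, (derivedSeries K n).map K.subtype = dd K n := by
    intro n
    rw [← dd_top, dd_map, ← MonoidHom.range_eq_map, Subgroup.range_subtype]
  rw [Group.isSolvable_def]
  constructor
  · rintro ⟨n, hn⟩
    exact ⟨n, by rw [← key, hn, Subgroup.map_bot]⟩
  · rintro ⟨n, hn⟩
    refine ⟨n, ?_⟩
    rw [← key] at hn
    exact (Subgroup.map_eq_bot_iff_of_injective _ K.subtype_injective).1 hn

end

/-- Locally soluble groups. -/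
def LS (G : Type*) [Group G] : Prop :=
  ∀ S : Finset G, Group.IsSolvable (Subgroup.closure (S : Set G))

section

variable {G H : Type*} [Group G] [Group H]

lemma LS_iff : LS G ↔ ∀ S : Finset G, ∃ n, dd (closure (S : Set G)) n = ⊥ :=
  forall_congr' fun _ => solvable_iff _

lemma LS.of_injective (f : G →* H) (hf : Function.Injective f) (h : LS H) : LS G := by
  classical
  rw [LS_iff] at h ⊢
  intro S
  obtain ⟨n, hn⟩ := h (S.image f)
  refine ⟨n, ?_⟩
  rw [Finset.coe_image, ← MonoidHom.map_closure, ← dd_map] at hn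
  exact (Subgroup.map_eq_bot_iff_of_injective _ hf).1 hn

lemma LS.of_surjective (f : G →* H) (hf : Function.Surjective f) (h : LS G) : LS H := by
  classical
  rw [LS_iff] at h ⊢
  intro S
  obtain ⟨n, hn⟩ := h (S.image (Function.surjInv hf))
  refine ⟨n, ?_⟩
  have h1 : closure (S : Set H) = (closure ((S.image (Function.surjInv hf) : Finset G) : Set G)).map f := by
    rw [MonoidHom.map_closure, Finset.coe_image, ← Set.image_comp]
    congr 1
    have : (f ∘ Function.surjInv hf) = id := by
      funext x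
      exact Function.surjInv_eq hf x
    rw [this, Set.image_id]
  rw [h1, ← dd_map, hn, Subgroup.map_bot]

lemma comm_self_le (K : Subgroup G) : ⁅K, K⁆ ≤ K := by
  rw [Subgroup.commutator_le]
  intro a ha b hb
  rw [commutatorElement_def]
  exact K.mul_mem (K.mul_mem (K.mul_mem ha hb) (K.inv_mem ha)) (K.inv_mem hb)

lemma dd_le (K : Subgroup G) (n : ℕ) : dd K n ≤ K := by
  induction n with
  | zero => exact le_rfl
  | succ n ih => exact (comm_self_le _).trans ih

lemma dd_anti (K : Subgroup G) {n m : ℕ} (h : n ≤ m) : dd K m ≤ dd K n := by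
  obtain ⟨k, rfl⟩ := Nat.exists_eq_add_of_le h
  rw [← dd_add]
  exact dd_le _ _

lemma LS.prod (hG : LS G) (hH : LS H) : LS (G × H) := by
  classical
  rw [LS_iff] at hG hH ⊢
  intro S
  obtain ⟨n, hn⟩ := hG (S.image Prod.fst)
  obtain ⟨m, hm⟩ := hH (S.image Prod.snd)
  refine ⟨n + m, ?_⟩
  rw [eq_bot_iff]
  intro x hx
  have e1 : closure ((S.image Prod.fst : Finset G) : Set G) =
      (closure (S : Set (G × H))).map (MonoidHom.fst G H) := by
    rw [MonoidHom.map_closure, Finset.coe_image]; rfl
  have e2 : closure ((S.image Prod.snd : Finset H) : Set H) =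
      (closure (S : Set (G × H))).map (MonoidHom.snd G H) := by
    rw [MonoidHom.map_closure, Finset.coe_image]; rfl
  rw [e1, ← dd_map] at hn
  rw [e2, ← dd_map] at hm
  have h1 : x.1 ∈ (dd (closure (S : Set (G × H))) n).map (MonoidHom.fst G H) :=
    ⟨x, dd_anti _ (Nat.le_add_right n m) hx, rfl⟩
  have h2 : x.2 ∈ (dd (closure (S : Set (G × H))) m).map (MonoidHom.snd G H) :=
    ⟨x, dd_anti _ (Nat.le_add_left m n) hx, rfl⟩
  rw [hn, Subgroup.mem_bot] at h1
  rw [hm, Subgroup.mem_bot] at h2
  rw [Subgroup.mem_bot]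
  exact Prod.ext h1 h2

lemma LS_of_solvable (h : Group.IsSolvable G) : LS G := fun _ => inferInstance

/-- elements of a locally soluble group do not lie in the derived subgroup of their normal
closure -/
lemma LS.eq_one (h : LS G) {c : G} (hc : c ∈ ⁅normalClosure {c}, normalClosure {c}⁆) : c = 1 := by
  classical
  rw [LS_iff] at h
  -- the normal closure of `c` in `closure S`
  let N : Finset G → Subgroup G := fun S =>
    closure {x | ∃ g ∈ closure (S : Set G), x = g * c * g⁻¹}
  have hmono : ∀ {S T : Finset G}, S ⊆ T → N S ≤ N T := by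
    intro S T hST
    apply Subgroup.closure_mono
    rintro x ⟨g, hg, rfl⟩
    exact ⟨g, Subgroup.closure_mono (by exact_mod_cast hST) hg, rfl⟩
  have hdir : Directed (· ≤ ·) N := fun S T =>
    ⟨S ∪ T, hmono Finset.subset_union_left, hmono Finset.subset_union_right⟩
  have hdir2 : Directed (· ≤ ·) (fun S => ⁅N S, N S⁆) := fun S T =>
    ⟨S ∪ T, Subgroup.commutator_mono (hmono Finset.subset_union_left)
      (hmono Finset.subset_union_left),
      Subgroup.commutator_mono (hmono Finset.subset_union_right)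
      (hmono Finset.subset_union_right)⟩
  have hN : normalClosure {c} ≤ ⨆ S, N S := by
    rw [Subgroup.normalClosure, Subgroup.closure_le]
    intro x hx
    rw [Group.mem_conjugatesOfSet_iff] at hx
    obtain ⟨a, ha, hax⟩ := hx
    rw [Set.mem_singleton_iff] at ha
    subst ha
    rw [isConj_iff] at hax
    obtain ⟨g, rfl⟩ := hax
    refine Subgroup.mem_iSup_of_mem {g} (Subgroup.subset_closure ⟨g, ?_, rfl⟩)
    exact Subgroup.subset_closure (by simp)
  have h1 : c ∈ ⨆ S, ⁅N S, N S⁆ := by
    refine (Subgroup.commutator_le.2 ?_ : ⁅normalClosure {c}, normalClosure {c}⁆ ≤ _) hc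
    intro a ha b hb
    obtain ⟨S, hS⟩ := (Subgroup.mem_iSup_of_directed hdir).1 (hN ha)
    obtain ⟨T, hT⟩ := (Subgroup.mem_iSup_of_directed hdir).1 (hN hb)
    exact Subgroup.mem_iSup_of_mem (S ∪ T) (Subgroup.commutator_mem_commutator
      (hmono Finset.subset_union_left hS) (hmono Finset.subset_union_right hT))
  obtain ⟨S₀, hS₀⟩ := (Subgroup.mem_iSup_of_directed hdir2).1 h1
  set S := insert c S₀ with hSdef
  have hS : c ∈ ⁅N S, N S⁆ := Subgroup.commutator_mono (hmono (Finset.subset_insert _ _))
    (hmono (Finset.subset_insert _ _)) hS₀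
  have hNS : N S ≤ closure (S : Set G) := by
    rw [Subgroup.closure_le]
    rintro x ⟨g, hg, rfl⟩
    exact mul_mem (mul_mem hg (Subgroup.subset_closure (by simp [hSdef]))) (inv_mem hg)
  have hconj : ∀ g ∈ closure (S : Set G), ∀ x ∈ N S, g * x * g⁻¹ ∈ N S := by
    intro g hg x hx
    have h2 : (N S).map (MulAut.conj g).toMonoidHom ≤ N S := by
      rw [MonoidHom.map_closure, Subgroup.closure_le]
      rintro _ ⟨y, ⟨k, hk, rfl⟩, rfl⟩
      refine Subgroup.subset_closure ⟨g * k, mul_mem hg hk, ?_⟩
      simp [mul_assoc]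
    exact h2 ⟨x, hx, by simp⟩
  have hconj2 : ∀ g ∈ closure (S : Set G), ∀ x ∈ ⁅N S, N S⁆, g * x * g⁻¹ ∈ ⁅N S, N S⁆ := by
    intro g hg x hx
    have h2 : (N S).map (MulAut.conj g).toMonoidHom ≤ N S := by
      rintro _ ⟨y, hy, rfl⟩
      exact hconj g hg y hy
    have h3 : (⁅N S, N S⁆).map (MulAut.conj g).toMonoidHom ≤ ⁅N S, N S⁆ := by
      rw [Subgroup.map_commutator]
      exact Subgroup.commutator_mono h2 h2
    exact h3 ⟨x, hx, by simp⟩
  have hperf : N S ≤ ⁅N S, N S⁆ := by
    rw [Subgroup.closure_le]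
    rintro x ⟨g, hg, rfl⟩
    exact hconj2 g hg c hS
  have hall : ∀ n, N S ≤ dd (N S) n := by
    intro n
    induction n with
    | zero => exact le_rfl
    | succ n ih => exact hperf.trans (Subgroup.commutator_mono ih ih)
  obtain ⟨n, hn⟩ := h S
  have h3 : c ∈ dd (closure (S : Set G)) n := dd_mono hNS n (hall n (comm_self_le _ hS))
  rw [hn, Subgroup.mem_bot] at h3
  exact h3

end

end Pool.Agent.H88R2.EC
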