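import Pool.Agent.H88R2.EC.Zorn

set_option autoImplicit false
set_option linter.unusedSectionVars false

/-! Existentially closed extensions over a fixed quotient. -/

namespace Pool.Agent.H88R2.EC

open Subgroup

open scoped commutatorElement

/-- `A` is existentially closed in the class of locally soluble groups over `Q`. -/
def REC {A Q : Type} [Group A] [Group Q] (πA : A →* Q) : Prop :=
  ∀ (H : Type) (_ : Group H), LS H → ∀ (f : A →* H) (ρ : H →* Q), Function.Injective f →
    (∀ a, ρ (f a) = πA a) →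
      ∀ n : ℕ, ∀ E U : Finset (Monoid.Coprod A (FreeGroup (Fin n))),
        (∃ x : Fin n → H,
          (∀ w ∈ E, Monoid.Coprod.lift f (FreeGroup.lift x) w = 1) ∧
          (∀ w ∈ U, Monoid.Coprod.lift f (FreeGroup.lift x) w ≠ 1)) →
        ∃ y : Fin n → A,
          (∀ w ∈ E, Monoid.Coprod.lift (MonoidHom.id A) (FreeGroup.lift y) w = 1) ∧
          (∀ w ∈ U, Monoid.Coprod.lift (MonoidHom.id A) (FreeGroup.lift y) w ≠ 1)

section

variable {G Q Y : Type} [Group G] [Group Q] {π : G →* Q} {code : Sys (G ⊕ Y) Q × ℕ → Y}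

instance (x : State π code) : (x.R.subgroupOf (FP code x.P)).Normal :=
  ⟨fun r hr w => x.valid.nrm w.1 w.2 r.1 hr⟩

/-- the group of a state -/
abbrev Grp (x : State π code) : Type := FP code x.P ⧸ (x.R.subgroupOf (FP code x.P))

/-- the class of an element -/
def cl (x : State π code) : FP code x.P →* Grp x := QuotientGroup.mk' _

lemma cl_surj (x : State π code) : Function.Surjective (cl x) := QuotientGroup.mk'_surjective _

lemma cl_eq_one (x : State π code) (w : FP code x.P) : cl x w = 1 ↔ w.1 ∈ x.R := by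
  rw [cl, QuotientGroup.mk'_apply, QuotientGroup.eq_one_iff, Subgroup.mem_subgroupOf]

/-- the map to `Q` -/
noncomputable def toQ (x : State π code) : Grp x →* Q :=
  QuotientGroup.lift _ ((rho π code).comp (FP code x.P).subtype) (fun w hw => x.valid.ker w.1 hw)

lemma toQ_cl (x : State π code) (w : FP code x.P) : toQ x (cl x w) = rho π code w.1 := rfl

lemma Grp_ls (x : State π code) : LS (Grp x) := by
  classical
  rw [LS_iff]
  intro S
  obtain ⟨T, hT⟩ : ∃ T : Finset (FP code x.P), T.image (cl x) = S := by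
    obtain ⟨T, _, hT⟩ := Finset.subset_set_image_iff.1
      (show (S : Set (Grp x)) ⊆ (cl x) '' Set.univ by
        intro y _
        obtain ⟨w, rfl⟩ := cl_surj x y
        exact ⟨w, trivial, rfl⟩)
    exact ⟨T, hT⟩
  subst hT
  obtain ⟨n, hn⟩ := x.valid.loc (T.image Subtype.val) (by
    intro w hw
    rw [Finset.coe_image] at hw
    obtain ⟨v, _, rfl⟩ := hw
    exact v.2)
  refine ⟨n, ?_⟩
  rw [Finset.coe_image, ← MonoidHom.map_closure, ← dd_map, eq_bot_iff]
  rintro _ ⟨w, hw, rfl⟩
  rw [Subgroup.mem_bot, cl_eq_one]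
  apply hn
  rw [Finset.coe_image]
  have h1 : (Subtype.val '' (T : Set (FP code x.P)) : Set (FreeGroup (G ⊕ Y))) =
      (FP code x.P).subtype '' (T : Set (FP code x.P)) := rfl
  rw [h1, ← MonoidHom.map_closure, ← dd_map]
  exact ⟨w, hw, rfl⟩

/-- the embedding of `G` -/
noncomputable def emb (x : State π code) : G →* Grp x where
  toFun g := cl x ⟨FreeGroup.map Sum.inl (FreeGroup.of g), inl_mem_FP _ _⟩
  map_one' := by
    rw [cl_eq_one]
    exact (x.valid.base _).2 (by simp)
  map_mul' a b := by
    rw [← map_mul, ← inv_mul_eq_one, ← map_inv, ← map_mul, cl_eq_one]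
    have h : (FreeGroup.map Sum.inl (FreeGroup.of (a * b)) : FreeGroup (G ⊕ Y))⁻¹ *
        (FreeGroup.map Sum.inl (FreeGroup.of a) * FreeGroup.map Sum.inl (FreeGroup.of b)) ∈ x.R := by
      rw [← map_inv, ← map_mul, ← map_mul]
      exact (x.valid.base _).2 (by simp)
    exact h

lemma emb_injective (x : State π code) : Function.Injective (emb x) := by
  rw [injective_iff_map_eq_one]
  intro g hg
  have h : cl x ⟨FreeGroup.map Sum.inl (FreeGroup.of g), inl_mem_FP _ _⟩ = 1 := hg
  rw [cl_eq_one] at h
  have := (x.valid.base _).1 h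
  simpa using this

lemma toQ_emb (x : State π code) (g : G) : toQ x (emb x g) = π g := by
  change rho π code (FreeGroup.map Sum.inl (FreeGroup.of g)) = π g
  rw [rho_inl]; simp

/-- a maximal state gives an existentially closed group over `Q` -/
lemma rec_of_max (hc : Function.Injective code) (x : State π code) (hx : IsMax x) :
    REC (toQ x) := by
  classical
  rintro H _ hH f ρH hf hρ n E U ⟨a, haE, haU⟩
  -- generators as elements of the subgroup
  let gn : gen code x.P → FP code x.P := fun z => ⟨FreeGroup.of z.1, subset_closure ⟨z.1, z.2, rfl⟩⟩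
  let Λ : FreeGroup (gen code x.P ⊕ Fin n) →* Monoid.Coprod (Grp x) (FreeGroup (Fin n)) :=
    FreeGroup.lift (Sum.elim (fun z => Monoid.Coprod.inl (cl x (gn z)))
      (fun i => Monoid.Coprod.inr (FreeGroup.of i)))
  have hgn : closure (Set.range gn) = ⊤ := by
    have h1 : (closure (Set.range gn)).map (FP code x.P).subtype = (⊤ : Subgroup _).map
        (FP code x.P).subtype := by
      rw [MonoidHom.map_closure, ← MonoidHom.range_eq_map, Subgroup.range_subtype,
        ← Set.range_comp]
      change Subgroup.closure _ = Subgroup.closure (FreeGroup.of '' gen code x.P)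
      congr 1
      ext w
      constructor
      · rintro ⟨z, rfl⟩
        exact ⟨z.1, z.2, rfl⟩
      · rintro ⟨z, hz, rfl⟩
        exact ⟨⟨z, hz⟩, rfl⟩
    exact Subgroup.map_injective (FP code x.P).subtype_injective h1
  have hΛ : Function.Surjective Λ := by
    rw [← MonoidHom.range_eq_top, eq_top_iff, ← Monoid.Coprod.range_inl_sup_range_inr, sup_le_iff]
    constructor
    · rintro _ ⟨b, rfl⟩
      obtain ⟨w, rfl⟩ := cl_surj x b
      have h1 : w ∈ closure (Set.range gn) := by rw [hgn]; trivial
      have h2 : closure (Set.range gn) ≤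
          Λ.range.comap ((Monoid.Coprod.inl (M := Grp x) (N := FreeGroup (Fin n))).comp (cl x)) := by
        rw [closure_le]
        rintro _ ⟨z, rfl⟩
        exact ⟨FreeGroup.of (Sum.inl z), by simp [Λ]⟩
      exact h2 h1
    · rintro _ ⟨b, rfl⟩
      have h1 : b ∈ closure (Set.range (FreeGroup.of : Fin n → _)) := by
        rw [FreeGroup.closure_range_of]; trivial
      have h2 : closure (Set.range (FreeGroup.of : Fin n → FreeGroup (Fin n))) ≤
          Λ.range.comap (Monoid.Coprod.inr (M := Grp x) (N := FreeGroup (Fin n))) := by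
        rw [closure_le]
        rintro _ ⟨z, rfl⟩
        exact ⟨FreeGroup.of (Sum.inr z), by simp [Λ]⟩
      exact h2 h1
  -- words
  let incl : FreeGroup (gen code x.P ⊕ Fin n) →* FreeGroup ((G ⊕ Y) ⊕ ℕ) :=
    FreeGroup.map (Sum.map Subtype.val Fin.val)
  have hincl : ∀ v, incl v ∈ Wlet code x.P := by
    intro v
    have h1 : v ∈ closure (Set.range (FreeGroup.of : gen code x.P ⊕ Fin n → _)) := by
      rw [FreeGroup.closure_range_of]; trivial
    have h2 : closure (Set.range (FreeGroup.of : gen code x.P ⊕ Fin n → _)) ≤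
        (Wlet code x.P).comap incl := by
      rw [closure_le]
      rintro _ ⟨z, rfl⟩
      change incl _ ∈ Wlet code x.P
      rcases z with z | i
      · exact subset_closure ⟨Sum.inl z.1, Or.inl ⟨z.1, z.2, rfl⟩, by simp [incl]⟩
      · exact subset_closure ⟨Sum.inr i.1, Or.inr ⟨i.1, rfl⟩, by simp [incl]⟩
    exact h2 h1
  let pre : Monoid.Coprod (Grp x) (FreeGroup (Fin n)) → FreeGroup (gen code x.P ⊕ Fin n) :=
    Function.surjInv hΛ
  have hpre : ∀ e, Λ (pre e) = e := Function.surjInv_eq hΛ
  let hat : Monoid.Coprod (Grp x) (FreeGroup (Fin n)) → FreeGroup ((G ⊕ Y) ⊕ ℕ) :=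
    fun e => incl (pre e)
  let s : Sys (G ⊕ Y) Q := (E.image hat, U.image hat, List.ofFn (fun i => ρH (a i)))
  by_cases hs : s ∈ x.P
  · -- the system has been solved
    obtain ⟨h1, h2⟩ := x.valid.sol s hs
    let vr : Fin n → FP code x.P := fun i =>
      ⟨FreeGroup.of (Sum.inr (code (s, i.1))), subset_closure ⟨_, Or.inr ⟨s, hs, i.1, rfl⟩, rfl⟩⟩
    let θ : FreeGroup (gen code x.P ⊕ Fin n) →* FP code x.P :=
      FreeGroup.lift (Sum.elim gn vr)
    have hθ : ∀ v, (θ v).1 = sub code s (incl v) := by
      intro v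
      have : (FP code x.P).subtype.comp θ = (sub code s).comp incl := by
        ext z
        rcases z with z | i
        · simp [θ, incl, sub, gn]
        · simp [θ, incl, sub, vr]
      exact DFunLike.congr_fun this v
    have hev : ∀ v, Monoid.Coprod.lift (MonoidHom.id (Grp x))
        (FreeGroup.lift (fun i => cl x (vr i))) (Λ v) = cl x (θ v) := by
      intro v
      have : (Monoid.Coprod.lift (MonoidHom.id (Grp x))
          (FreeGroup.lift (fun i => cl x (vr i)))).comp Λ = (cl x).comp θ := by
        ext z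
        rcases z with z | i
        · simp [θ, Λ]
        · simp [θ, Λ]
      exact DFunLike.congr_fun this v
    refine ⟨fun i => cl x (vr i), ?_, ?_⟩
    · intro w hw
      rw [← hpre w, hev, cl_eq_one, hθ]
      exact h1 _ (Finset.mem_image_of_mem hat hw)
    · intro w hw
      rw [← hpre w, hev, Ne, cl_eq_one, hθ]
      exact (h2 _ (Finset.mem_image_of_mem hat hw)).2
  · exfalso
    let F' : FreeGroup (G ⊕ Y) →* H := FreeGroup.lift (fun z =>
      if h : z ∈ gen code x.P then f (cl x (gn ⟨z, h⟩)) else 1)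
    have hF' : ∀ w : FP code x.P, F' w.1 = f (cl x w) := by
      intro w
      have h1 : w ∈ closure (Set.range gn) := by rw [hgn]; trivial
      refine eq_on_closure (f := F'.comp (FP code x.P).subtype) (g := f.comp (cl x)) ?_ h1
      rintro _ ⟨z, rfl⟩
      have hz : z.1 ∈ gen code x.P := z.2
      simp only [MonoidHom.comp_apply, Subgroup.subtype_apply, F']
      change FreeGroup.lift _ (FreeGroup.of z.1) = _
      rw [FreeGroup.lift_apply_of, dif_pos hz]
    let aa : ℕ → H := fun i => if h : i < n then a ⟨i, h⟩ else 1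
    have heval : ∀ v, FreeGroup.lift (Sum.elim (fun z => F' (FreeGroup.of z)) aa) (incl v) =
        Monoid.Coprod.lift f (FreeGroup.lift a) (Λ v) := by
      intro v
      have : (FreeGroup.lift (Sum.elim (fun z => F' (FreeGroup.of z)) aa)).comp incl =
          (Monoid.Coprod.lift f (FreeGroup.lift a)).comp Λ := by
        ext z
        rcases z with z | i
        · have h1 := hF' (gn z)
          have h2 : F' (FreeGroup.of z.1) = f (cl x (gn z)) := h1
          simp only [MonoidHom.comp_apply, incl, FreeGroup.map.of, Sum.map_inl,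
            FreeGroup.lift_apply_of, Sum.elim_inl, Λ, Monoid.Coprod.lift_apply_inl, h2]
        · simp [incl, Λ, aa]
      exact DFunLike.congr_fun this v
    obtain ⟨y, hxy, hsy⟩ := exists_ext hc x s hs
      (fun e he => by
        obtain ⟨w, _, rfl⟩ := Finset.mem_image.1 he
        exact hincl _)
      (fun e he => by
        obtain ⟨w, _, rfl⟩ := Finset.mem_image.1 he
        exact hincl _)
      H hH F' ρH
      (fun w hw => by
        have := hF' ⟨w, hw⟩
        rw [show F' w = f (cl x ⟨w, hw⟩) from this, map_eq_one_iff f hf, cl_eq_one])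
      (fun w hw => by
        have := hF' ⟨w, hw⟩
        rw [show F' w = f (cl x ⟨w, hw⟩) from this, hρ, toQ_cl])
      aa
      (fun i => by
        change ρH (aa i) = (List.ofFn (fun i => ρH (a i))).getD i 1
        by_cases h : i < n
        · simp [aa, h, List.getD_eq_getElem?_getD]
        · simp [aa, h, List.getD_eq_getElem?_getD])
      (fun e he => by
        obtain ⟨w, hw, rfl⟩ := Finset.mem_image.1 he
        change FreeGroup.lift _ (incl (pre w)) = 1
        rw [heval, hpre]
        exact haE w hw)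
      (fun e he => by
        obtain ⟨w, hw, rfl⟩ := Finset.mem_image.1 he
        change FreeGroup.lift _ (incl (pre w)) ≠ 1
        rw [heval, hpre]
        exact haU w hw)
    exact hs ((hx hxy).1 hsy)

end

/-- existence of the code -/
lemma exists_code (G Q : Type) : ∃ Y : Type, (Countable G → Countable Q → Countable Y) ∧
    ∃ code : Sys (G ⊕ Y) Q × ℕ → Y, Function.Injective code := by
  classical
  refine ⟨G ⊕ Q ⊕ ℕ, fun _ _ => inferInstance, ?_⟩
  open Cardinal in
  have hc : ℵ₀ ≤ #(G ⊕ Q ⊕ ℕ) := Cardinal.aleph0_le_mk _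
  set c := Cardinal.mk (G ⊕ Q ⊕ ℕ) with hcdef
  have hG : Cardinal.mk G ≤ c := Cardinal.mk_le_of_injective (f := Sum.inl) Sum.inl_injective
  have hQ : Cardinal.mk Q ≤ c := Cardinal.mk_le_of_injective (f := fun q => Sum.inr (Sum.inl q))
    (Sum.inr_injective.comp Sum.inl_injective)
  have h1 : Cardinal.mk ((G ⊕ (G ⊕ Q ⊕ ℕ)) ⊕ ℕ) = c := by
    rw [Cardinal.mk_sum, Cardinal.mk_sum, Cardinal.lift_id, Cardinal.lift_id, Cardinal.lift_id,
      Cardinal.lift_id, ← hcdef, Cardinal.add_eq_right hc hG, Cardinal.mk_nat,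
      Cardinal.add_eq_left hc hc]
  have h2 : Cardinal.mk (FreeGroup ((G ⊕ (G ⊕ Q ⊕ ℕ)) ⊕ ℕ)) = c := by
    rw [Cardinal.mk_freeGroup, h1, max_eq_left hc]
  have hinf : Infinite (FreeGroup ((G ⊕ (G ⊕ Q ⊕ ℕ)) ⊕ ℕ)) := by
    rw [Cardinal.infinite_iff, h2]; exact hc
  have h3 : Cardinal.mk (Finset (FreeGroup ((G ⊕ (G ⊕ Q ⊕ ℕ)) ⊕ ℕ))) = c := by
    rw [Cardinal.mk_finset_of_infinite, h2]
  have h4 : Cardinal.mk (List Q) ≤ c := (Cardinal.mk_list_le_max Q).trans (max_le hc hQ)
  have h5 : Cardinal.mk (Sys (G ⊕ (G ⊕ Q ⊕ ℕ)) Q × ℕ) ≤ c := by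
    simp only [Cardinal.mk_prod, Cardinal.lift_id]
    rw [h3, Cardinal.mk_nat]
    calc c * (c * Cardinal.mk (List Q)) * Cardinal.aleph0 ≤ c * (c * c) * c := by gcongr
      _ = c := by rw [Cardinal.mul_eq_self hc, Cardinal.mul_eq_self hc, Cardinal.mul_eq_self hc]
  obtain ⟨e⟩ := Cardinal.le_def _ _ |>.1 h5
  exact ⟨e, e.injective⟩

/-- Every locally soluble group over `Q` embeds in one which is existentially closed over `Q`. -/
theorem exists_rec (G Q : Type) [Group G] [Group Q] (π : G →* Q) (hG : LS G) :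
    ∃ (A : Type) (_ : Group A) (j : G →* A) (πA : A →* Q), LS A ∧ Function.Injective j ∧
      (∀ g, πA (j g) = π g) ∧ REC πA ∧ (Countable G → Countable Q → Countable A) := by
  obtain ⟨Y, hY, code, hc⟩ := exists_code G Q
  obtain ⟨x, hx⟩ := zorn_le (α := State π code) (fun c hch => bddAbove_of_chain hG c hch)
  refine ⟨Grp x, inferInstance, emb x, toQ x, Grp_ls x, emb_injective x, toQ_emb x,
    rec_of_max hc x hx, ?_⟩
  intro h1 h2
  have := hY h1 h2
  have h3 : Countable (FreeGroup (G ⊕ Y)) := inferInstance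
  have h4 : Countable (FP code x.P) := inferInstance
  exact (cl_surj x).countable

end Pool.Agent.H88R2.EC
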