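import Pool.Agent.H88R2.EC.Basic

set_option autoImplicit false

/-! Wreath products with functions of finite range. -/

namespace Pool.Agent.H88R2.EC

open Subgroup

open scoped commutatorElement

/-- translation of functions -/
def trans (B Q : Type) [Group B] [Group Q] : Q →* MulAut (Q → B) where
  toFun q :=
    { toFun := fun f x => f (q⁻¹ * x)
      invFun := fun f x => f (q * x)
      left_inv := fun f => by funext x; simp
      right_inv := fun f => by funext x; simp
      map_mul' := fun f g => rfl }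
  map_one' := by
    ext f x
    simp
  map_mul' p q := by
    ext f x
    simp [mul_assoc]

/-- the full unrestricted wreath product -/
abbrev WW (B Q : Type) [Group B] [Group Q] : Type := (Q → B) ⋊[trans B Q] Q

/-- the wreath product with functions of finite range -/
def Wsub (B Q : Type) [Group B] [Group Q] : Subgroup (WW B Q) where
  carrier := {x | (Set.range x.left).Finite}
  one_mem' := by
    change (Set.range (1 : Q → B)).Finite
    exact Set.Finite.subset (Set.finite_singleton 1) (by rintro _ ⟨x, rfl⟩; rfl)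
  mul_mem' := by
    intro a b ha hb
    refine Set.Finite.subset (Set.Finite.image2 (· * ·) ha hb) ?_
    rintro _ ⟨x, rfl⟩
    refine ⟨a.left x, ⟨x, rfl⟩, b.left (a.right⁻¹ * x), ⟨_, rfl⟩, rfl⟩
  inv_mem' := by
    intro a ha
    refine Set.Finite.subset (Set.Finite.image (·⁻¹) ha) ?_
    rintro _ ⟨x, rfl⟩
    refine ⟨a.left (a.right * x), ⟨_, rfl⟩, ?_⟩
    simp [SemidirectProduct.inv_left, trans]

/-- the wreath product with functions of finite range, as a group -/
abbrev W (B Q : Type) [Group B] [Group Q] : Type := Wsub B Q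

variable {B Q : Type} [Group B] [Group Q]

/-- the constructor -/
def W.mk (f : Q → B) (hf : (Set.range f).Finite) (q : Q) : W B Q := ⟨⟨f, q⟩, hf⟩

/-- the projection -/
def W.pr : W B Q →* Q := SemidirectProduct.rightHom.comp (Wsub B Q).subtype

@[simp] lemma W.pr_mk (f : Q → B) (hf : (Set.range f).Finite) (q : Q) :
    W.pr (W.mk f hf q) = q := rfl

/-- coordinates -/
def W.fn (x : W B Q) : Q → B := x.1.left

@[simp] lemma W.fn_mk (f : Q → B) (hf : (Set.range f).Finite) (q : Q) :
    (W.mk f hf q).fn = f := rfl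

lemma W.ext {x y : W B Q} (h1 : ∀ i, x.fn i = y.fn i) (h2 : W.pr x = W.pr y) : x = y := by
  apply Subtype.ext
  apply SemidirectProduct.ext
  · funext i; exact h1 i
  · exact h2

@[simp] lemma W.fn_one (i : Q) : (1 : W B Q).fn i = 1 := rfl

@[simp] lemma W.fn_mul (x y : W B Q) (i : Q) : (x * y).fn i = x.fn i * y.fn ((W.pr x)⁻¹ * i) :=
  rfl

@[simp] lemma W.fn_inv (x : W B Q) (i : Q) : (x⁻¹).fn i = (x.fn (W.pr x * i))⁻¹ := by
  change ((x.1)⁻¹).left i = _
  simp only [SemidirectProduct.inv_left, trans, W.fn]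
  simp
  rfl

lemma W.fn_finite (x : W B Q) : (Set.range x.fn).Finite := x.2

/-- local solubility of the wreath product -/
theorem W.ls (hB : LS B) (hQ : LS Q) : LS (W B Q) := by
  classical
  rw [LS_iff] at hB hQ ⊢
  intro S
  obtain ⟨n, hn⟩ := hQ (S.image W.pr)
  have hfin : (⋃ s ∈ S, Set.range (W.fn s)).Finite :=
    Set.Finite.biUnion S.finite_toSet (fun s _ => s.fn_finite)
  obtain ⟨m, hm⟩ := hB hfin.toFinset
  rw [Set.Finite.coe_toFinset] at hm
  set K : Subgroup B := closure (⋃ s ∈ S, Set.range (W.fn s)) with hK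
  -- the elements with values in `K`
  let V : Subgroup (W B Q) :=
    { carrier := {x | ∀ i, x.fn i ∈ K}
      one_mem' := fun i => by simp
      mul_mem' := fun {x y} hx hy i => by
        rw [W.fn_mul]; exact mul_mem (hx _) (hy _)
      inv_mem' := fun {x} hx i => by
        rw [W.fn_inv]; exact inv_mem (hx _) }
  have hSV : closure (S : Set (W B Q)) ≤ V := by
    rw [Subgroup.closure_le]
    intro s hs i
    exact Subgroup.subset_closure (Set.mem_biUnion hs ⟨i, rfl⟩)
  -- the elements of the base with values in a term of the series of `K`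
  let U : ℕ → Subgroup (W B Q) := fun j =>
    { carrier := {x | W.pr x = 1 ∧ ∀ i, x.fn i ∈ dd K j}
      one_mem' := ⟨map_one _, fun i => by simp⟩
      mul_mem' := fun {x y} hx hy => ⟨by rw [map_mul, hx.1, hy.1, one_mul], fun i => by
        rw [W.fn_mul]; exact mul_mem (hx.2 _) (hy.2 _)⟩
      inv_mem' := fun {x} hx => ⟨by rw [map_inv, hx.1, inv_one], fun i => by
        rw [W.fn_inv]; exact inv_mem (hx.2 _)⟩ }
  have hU : ∀ j, dd (dd (closure (S : Set (W B Q))) n) j ≤ U j := by
    intro j
    induction j with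
    | zero =>
      intro x hx
      refine ⟨?_, fun i => hSV (dd_le _ _ hx) i⟩
      have h1 : W.pr x ∈ (dd (closure (S : Set (W B Q))) n).map W.pr := ⟨x, hx, rfl⟩
      rw [dd_map, MonoidHom.map_closure, ← Finset.coe_image, hn, Subgroup.mem_bot] at h1
      exact h1
    | succ j ih =>
      refine (Subgroup.commutator_mono ih ih).trans ?_
      rw [Subgroup.commutator_le]
      rintro a ⟨ha1, ha2⟩ b ⟨hb1, hb2⟩
      refine ⟨by rw [map_commutatorElement, ha1, hb1]; simp, fun i => ?_⟩
      have : (⁅a, b⁆).fn i = ⁅a.fn i, b.fn i⁆ := by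
        simp [commutatorElement_def, ha1, hb1]
      rw [this]
      exact Subgroup.commutator_mem_commutator (ha2 i) (hb2 i)
  refine ⟨n + m, ?_⟩
  rw [← dd_add, eq_bot_iff]
  intro x hx
  obtain ⟨h1, h2⟩ := hU m hx
  rw [Subgroup.mem_bot]
  refine W.ext (fun i => ?_) h1
  have := h2 i
  rw [hm, Subgroup.mem_bot] at this
  rw [this, W.fn_one]

/-- every locally soluble group embeds in a locally soluble group in which its elements are
commutators -/
lemma exists_comm (G : Type) [Group G] (hG : LS G) :
    ∃ (B : Type) (_ : Group B) (β : G →* B), LS B ∧ Function.Injective β ∧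
      ∀ g, ∃ a b : B, β g = ⁅a, b⁆ := by
  classical
  have hZ : LS (Multiplicative ℤ) := LS_of_solvable inferInstance
  let β : G →* W G (Multiplicative ℤ) :=
    { toFun := fun g => W.mk (fun i => if i = 1 then g else 1)
        (Set.Finite.subset (Set.toFinite {g, 1}) (by
          rintro _ ⟨i, rfl⟩
          by_cases h : i = 1 <;> simp [h])) 1
      map_one' := W.ext (fun i => by simp) rfl
      map_mul' := fun g h => W.ext (fun i => by
        by_cases hi : i = 1 <;> simp [hi]) (by simp) }
  refine ⟨W G (Multiplicative ℤ), inferInstance, β, W.ls hG hZ, ?_, ?_⟩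
  · intro g h hgh
    have := congrArg (fun x => W.fn x 1) hgh
    simpa [β] using this
  · intro g
    refine ⟨W.mk (fun i => if (0 : ℤ) ≤ Multiplicative.toAdd i then g else 1)
        (Set.Finite.subset (Set.toFinite {g, 1}) (by
          rintro _ ⟨i, rfl⟩
          by_cases h : (0 : ℤ) ≤ Multiplicative.toAdd i <;> simp [h])) 1,
      W.mk (fun _ => 1) (Set.Finite.subset (Set.toFinite {1}) (by rintro _ ⟨i, rfl⟩; simp))
        (Multiplicative.ofAdd 1), ?_⟩
    refine W.ext (fun i => ?_) ?_
    · simp only [commutatorElement_def, W.fn_mul, W.fn_inv, β, MonoidHom.coe_mk, OneHom.coe_mk,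
        W.fn_mk, W.pr_mk, map_mul, map_inv]
      obtain ⟨k, rfl⟩ : ∃ k : ℤ, Multiplicative.ofAdd k = i := ⟨Multiplicative.toAdd i, rfl⟩
      have e1 : (Multiplicative.ofAdd k = 1) ↔ k = 0 := by
        rw [← ofAdd_zero]; exact Multiplicative.ofAdd.injective.eq_iff
      simp only [e1]
      simp
      by_cases h0 : k = 0
      · subst h0; simp
      · rcases lt_or_gt_of_ne h0 with h | h
        · have h1 : ¬ (0 ≤ k) := by omega
          have h2 : ¬ (1 ≤ k) := by omega
          simp [h0, h1, h2]
        · have h1 : (0 ≤ k) := by omega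
          have h2 : (1 ≤ k) := by omega
          simp [h0, h1, h2]
    · simp [commutatorElement_def, β]

/-- every locally soluble group embeds in a locally soluble group in which its elements are
commutators of commutators -/
lemma exists_comm2 (G : Type) [Group G] (hG : LS G) :
    ∃ (B : Type) (_ : Group B) (β : G →* B), LS B ∧ Function.Injective β ∧
      ∀ g, ∃ a b c d : B, β g = ⁅⁅a, b⁆, ⁅c, d⁆⁆ := by
  obtain ⟨B, _, β, hB, hβ, h⟩ := exists_comm G hG
  obtain ⟨C, _, γ, hC, hγ, h'⟩ := exists_comm B hB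
  refine ⟨C, inferInstance, γ.comp β, hC, hγ.comp hβ, fun g => ?_⟩
  obtain ⟨x, y, hxy⟩ := h g
  obtain ⟨a, b, hab⟩ := h' x
  obtain ⟨c, d, hcd⟩ := h' y
  exact ⟨a, b, c, d, by rw [MonoidHom.comp_apply, hxy, map_commutatorElement, hab, hcd]⟩

/-- a set cut in three pieces -/
lemma exists_three (q : Q) (hq : q ≠ 1) : ∃ X : Fin 3 → Set Q,
    (∀ x, ∃ j, x ∈ X j) ∧ (∀ j x, x ∈ X j → q * x ∉ X j) := by
  obtain ⟨P, hP⟩ : ∃ P : Set Q, Maximal (fun P : Set Q => ∀ x ∈ P, q * x ∉ P) P := by
    refine zorn_subset _ ?_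
    intro c hc hchain
    refine ⟨⋃₀ c, ?_, fun s hs => Set.subset_sUnion_of_mem hs⟩
    rintro x ⟨s, hs, hxs⟩ ⟨t, ht, hxt⟩
    rcases hchain.total hs ht with h | h
    · exact hc ht x (h hxs) hxt
    · exact hc hs x hxs (h hxt)
  have hP1 : ∀ x ∈ P, q * x ∉ P := hP.prop
  refine ⟨![P, {x | q⁻¹ * x ∈ P}, {x | q * x ∈ P}], ?_, ?_⟩
  · intro x
    by_contra hcon
    push Not at hcon
    have h0 : x ∉ P := by simpa using hcon 0
    have h1 : q⁻¹ * x ∉ P := by simpa using hcon 1
    have h2 : q * x ∉ P := by simpa using hcon 2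
    apply h0
    refine hP.le_of_ge (y := insert x P) ?_ (Set.subset_insert x P) (Set.mem_insert x P)
    rintro y (rfl | hy) hqy
    · rcases hqy with h | h
      · exact hq (by simpa using h)
      · exact h2 h
    · rcases hqy with h | h
      · apply h1
        rw [← h]; simpa using hy
      · exact hP1 y hy h
  · intro j x hx
    fin_cases j
    · exact hP1 x hx
    · intro h
      have hx' : q⁻¹ * x ∈ P := hx
      have h' : q⁻¹ * (q * x) ∈ P := h
      have := hP1 _ hx'
      apply this
      simpa using h'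
    · intro h
      have hx' : q * x ∈ P := hx
      have h' : q * (q * x) ∈ P := h
      exact hP1 _ hx' h'

end Pool.Agent.H88R2.EC
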