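import Pool.Agent.H88R2.EC.Closure
import Pool.Agent.H88R2.EC.Wreath

set_option autoImplicit false

/-! Existentially closed locally soluble groups that are not characteristically simple. -/

namespace Pool.Agent.H88R2.EC

open Subgroup

open scoped commutatorElement

/-- `A` is existentially closed in the class of locally soluble groups. -/
def AEC (A : Type) [Group A] : Prop :=
  ∀ (H : Type) (_ : Group H), LS H → ∀ (f : A →* H), Function.Injective f →
      ∀ n : ℕ, ∀ E U : Finset (Monoid.Coprod A (FreeGroup (Fin n))),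
        (∃ x : Fin n → H,
          (∀ w ∈ E, Monoid.Coprod.lift f (FreeGroup.lift x) w = 1) ∧
          (∀ w ∈ U, Monoid.Coprod.lift f (FreeGroup.lift x) w ≠ 1)) →
        ∃ y : Fin n → A,
          (∀ w ∈ E, Monoid.Coprod.lift (MonoidHom.id A) (FreeGroup.lift y) w = 1) ∧
          (∀ w ∈ U, Monoid.Coprod.lift (MonoidHom.id A) (FreeGroup.lift y) w ≠ 1)

/-- the double commutator -/
def TT {A : Type} [Group A] (c a b d e : A) : A := ⁅⁅⁅a, c⁆, b⁆, ⁅⁅d, c⁆, e⁆⁆

lemma map_TT {A B : Type} [Group A] [Group B] (f : A →* B) (c a b d e : A) :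
    f (TT c a b d e) = TT (f c) (f a) (f b) (f d) (f e) := by
  simp only [TT, map_commutatorElement]

lemma TT_mem {A : Type} [Group A] (c a b d e : A) :
    TT c a b d e ∈ ⁅normalClosure {c}, normalClosure {c}⁆ := by
  have hc : c ∈ normalClosure {c} := subset_normalClosure rfl
  have h1 : ∀ a : A, ⁅a, c⁆ ∈ normalClosure {c} := by
    intro a
    rw [commutatorElement_def]
    exact mul_mem (normalClosure_normal.conj_mem c hc a) (inv_mem hc)
  have h2 : ∀ x ∈ normalClosure {c}, ∀ b : A, ⁅x, b⁆ ∈ normalClosure {c} := by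
    intro x hx b
    rw [commutatorElement_def, mul_assoc, mul_assoc]
    refine mul_mem hx ?_
    rw [← mul_assoc]
    exact normalClosure_normal.conj_mem _ (inv_mem hx) b
  exact commutator_mem_commutator (h2 _ (h1 a) b) (h2 _ (h1 d) e)

section

variable {A Q : Type} [Group A] [Group Q]

/-- in an existentially closed group over `Q` the kernel lies below all other elements -/
theorem mem_comm {πA : A →* Q} (hrec : REC πA) (hA : LS A) (hQ : LS Q) {c k : A}
    (hc : πA c ≠ 1) (hk : πA k = 1) : k ∈ ⁅normalClosure {c}, normalClosure {c}⁆ := by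
  classical
  obtain ⟨B, _, β, hB, hβ, hcomm⟩ := exists_comm2 A hA
  obtain ⟨X, hX1, hX2⟩ := exists_three (πA c) hc
  obtain ⟨a₁, a₂, a₃, a₄, hab⟩ := hcomm k
  let f : A →* W B Q :=
    { toFun := fun g => W.mk (fun _ => β g)
        (Set.Finite.subset (Set.finite_singleton (β g)) (by rintro _ ⟨i, rfl⟩; rfl)) (πA g)
      map_one' := W.ext (fun i => by simp) (by simp)
      map_mul' := fun g h => W.ext (fun i => by simp) (by simp) }
  have hfn : ∀ g i, (f g).fn i = β g := fun _ _ => rfl
  have hpr : ∀ g, W.pr (f g) = πA g := fun _ => rfl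
  have hf : Function.Injective f := by
    intro g h hgh
    have h1 := congrArg (fun x => W.fn x 1) hgh
    exact hβ h1
  let u : Set Q → B → W B Q := fun D b => W.mk (fun i => if i ∈ D then b else 1)
    (Set.Finite.subset (Set.toFinite {b, 1}) (by
      rintro _ ⟨i, rfl⟩
      by_cases h : i ∈ D <;> simp [h])) 1
  have hufn : ∀ D b i, (u D b).fn i = if i ∈ D then b else 1 := fun _ _ _ => rfl
  have hupr : ∀ D b, W.pr (u D b) = 1 := fun _ _ => rfl
  have hu1 : ∀ D : Set Q, (∀ x ∈ D, πA c * x ∉ D) → ∀ a b : B,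
      ⁅⁅u D a, f c⁆, u D b⁆ = u D ⁅a, b⁆ := by
    intro D hD a b
    refine W.ext (fun i => ?_) (by simp [commutatorElement_def, hupr])
    by_cases hi : i ∈ D
    · have h1 : (πA c)⁻¹ * i ∉ D := by
        intro h
        have := hD _ h
        rw [mul_inv_cancel_left] at this
        exact this hi
      simp [commutatorElement_def, hufn, hupr, hfn, hpr, hi, h1]
    · by_cases h1 : (πA c)⁻¹ * i ∈ D
      · simp [commutatorElement_def, hufn, hupr, hfn, hpr, hi, h1]
      · simp [commutatorElement_def, hufn, hupr, hfn, hpr, hi, h1]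
  have hu2 : ∀ D : Set Q, (∀ x ∈ D, πA c * x ∉ D) →
      TT (f c) (u D a₁) (u D a₂) (u D a₃) (u D a₄) = u D (β k) := by
    intro D hD
    rw [TT, hu1 D hD, hu1 D hD, hab]
    refine W.ext (fun i => ?_) (by simp [commutatorElement_def, hupr])
    by_cases hi : i ∈ D <;> simp [commutatorElement_def, hufn, hupr, hi]
  let D : Fin 3 → Set Q := ![X 0, X 1 \ X 0, X 2 \ (X 0 ∪ X 1)]
  have hD0 : ∀ x ∈ D 0, πA c * x ∉ D 0 := fun x hx => hX2 0 x hx
  have hD1 : ∀ x ∈ D 1, πA c * x ∉ D 1 := fun x hx h => hX2 1 x hx.1 h.1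
  have hD2 : ∀ x ∈ D 2, πA c * x ∉ D 2 := fun x hx h => hX2 2 x hx.1 h.1
  have hprod : u (D 0) (β k) * u (D 1) (β k) * u (D 2) (β k) = f k := by
    refine W.ext (fun i => ?_) (by simp [hupr, hpr, hk])
    simp only [W.fn_mul, hufn, hupr, hfn, inv_one, one_mul, map_mul]
    by_cases h0 : i ∈ X 0
    · simp [D, h0]
    · by_cases h1 : i ∈ X 1
      · simp [D, h0, h1]
      · have h2 : i ∈ X 2 := by
          obtain ⟨j, hj⟩ := hX1 i
          fin_cases j
          · exact absurd hj h0
          · exact absurd hj h1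
          · exact hj
        simp [D, h0, h1, h2]
  let v : Fin 12 → Monoid.Coprod A (FreeGroup (Fin 12)) := fun i =>
    Monoid.Coprod.inr (FreeGroup.of i)
  let C : Monoid.Coprod A (FreeGroup (Fin 12)) := Monoid.Coprod.inl c
  let w : Monoid.Coprod A (FreeGroup (Fin 12)) := (Monoid.Coprod.inl k)⁻¹ *
    (TT C (v 0) (v 1) (v 2) (v 3) * TT C (v 4) (v 5) (v 6) (v 7) * TT C (v 8) (v 9) (v 10) (v 11))
  have hw : ∀ {H : Type} [Group H] (g : A →* H) (x : Fin 12 → H),
      Monoid.Coprod.lift g (FreeGroup.lift x) w = (g k)⁻¹ *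
        (TT (g c) (x 0) (x 1) (x 2) (x 3) * TT (g c) (x 4) (x 5) (x 6) (x 7) *
          TT (g c) (x 8) (x 9) (x 10) (x 11)) := by
    intro H _ g x
    simp only [w, v, C, map_mul, map_inv, map_TT, Monoid.Coprod.lift_apply_inl,
      Monoid.Coprod.lift_apply_inr, FreeGroup.lift_apply_of]
  obtain ⟨y, hy, _⟩ := hrec (W B Q) inferInstance (W.ls hB hQ) f W.pr hf (fun _ => rfl) 12 {w} ∅
    ⟨![u (D 0) a₁, u (D 0) a₂, u (D 0) a₃, u (D 0) a₄, u (D 1) a₁, u (D 1) a₂, u (D 1) a₃,
      u (D 1) a₄, u (D 2) a₁, u (D 2) a₂, u (D 2) a₃, u (D 2) a₄], by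
      constructor
      · intro w' hw'
        rw [Finset.mem_singleton] at hw'
        rw [hw', hw]
        change (f k)⁻¹ * (TT (f c) (u (D 0) a₁) (u (D 0) a₂) (u (D 0) a₃) (u (D 0) a₄) *
          TT (f c) (u (D 1) a₁) (u (D 1) a₂) (u (D 1) a₃) (u (D 1) a₄) *
          TT (f c) (u (D 2) a₁) (u (D 2) a₂) (u (D 2) a₃) (u (D 2) a₄)) = 1
        rw [hu2 _ hD0, hu2 _ hD1, hu2 _ hD2, hprod, inv_mul_cancel]
      · intro w' hw'
        exact absurd hw' (Finset.notMem_empty _)⟩
  have h1 := hy w (Finset.mem_singleton_self w)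
  rw [hw, inv_mul_eq_one, MonoidHom.id_apply] at h1
  rw [h1]
  exact mul_mem (mul_mem (TT_mem _ _ _ _ _) (TT_mem _ _ _ _ _)) (TT_mem _ _ _ _ _)

/-- a group which is existentially closed over an existentially closed quotient is existentially
closed -/
theorem aec_of_rec {πA : A →* Q} (hQ' : AEC Q) (hQ : LS Q) (hA : LS A) (hrec : REC πA)
    (hsurj : Function.Surjective πA) : AEC A := by
  classical
  rintro H _ hH f hf n E U ⟨x, hxE, hxU⟩
  set M : Subgroup H := normalClosure (f '' (πA.ker : Set A)) with hM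
  have hMn : M.Normal := normalClosure_normal
  have hMker : ∀ a, f a ∈ M → a ∈ πA.ker := by
    intro a ha
    by_contra hcon
    have h1 : M ≤ ⁅normalClosure {f a}, normalClosure {f a}⁆ := by
      refine normalClosure_le_normal ?_
      rintro _ ⟨k, hk, rfl⟩
      have h2 := mem_comm hrec hA hQ hcon hk
      have h3 : (normalClosure {a}).map f ≤ normalClosure {f a} := by
        rw [map_le_iff_le_comap]
        refine normalClosure_le_normal ?_
        rintro _ rfl
        exact subset_normalClosure rfl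
      have h4 : (⁅normalClosure {a}, normalClosure {a}⁆).map f ≤
          ⁅normalClosure {f a}, normalClosure {f a}⁆ := by
        rw [map_commutator]
        exact commutator_mono h3 h3
      exact h4 ⟨k, h2, rfl⟩
    have h5 := hH.eq_one (h1 ha)
    have h6 : a = 1 := hf (by rw [h5, map_one])
    apply hcon
    rw [h6]
    exact one_mem _
  let g : A →* H ⧸ M := (QuotientGroup.mk' M).comp f
  have hg : πA.ker ≤ g.ker := by
    intro k hk
    change QuotientGroup.mk' M (f k) = 1
    rw [QuotientGroup.mk'_apply, QuotientGroup.eq_one_iff]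
    exact subset_normalClosure ⟨k, hk, rfl⟩
  obtain ⟨fb, hfb⟩ : ∃ fb : Q →* H ⧸ M, ∀ a, fb (πA a) = g a := by
    refine ⟨(QuotientGroup.lift πA.ker g hg).comp
      (QuotientGroup.quotientKerEquivOfSurjective πA hsurj).symm.toMonoidHom, fun a => ?_⟩
    have : (QuotientGroup.quotientKerEquivOfSurjective πA hsurj).symm (πA a) =
        (a : A ⧸ πA.ker) := by
      rw [MulEquiv.symm_apply_eq]; rfl
    change QuotientGroup.lift πA.ker g hg
      ((QuotientGroup.quotientKerEquivOfSurjective πA hsurj).symm (πA a)) = g a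
    rw [this]; rfl
  have hfbi : Function.Injective fb := by
    rw [injective_iff_map_eq_one]
    intro q hq
    obtain ⟨a, rfl⟩ := hsurj q
    rw [hfb] at hq
    have : f a ∈ M := by
      rw [← QuotientGroup.eq_one_iff]; exact hq
    exact hMker a this
  let μ : Monoid.Coprod A (FreeGroup (Fin n)) →* Monoid.Coprod Q (FreeGroup (Fin n)) :=
    Monoid.Coprod.map πA (MonoidHom.id _)
  obtain ⟨y, hy, _⟩ := hQ' (H ⧸ M) inferInstance
    (hH.of_surjective (QuotientGroup.mk' M) (QuotientGroup.mk'_surjective M)) fb hfbi n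
    (E.image μ) ∅ ⟨fun i => QuotientGroup.mk' M (x i), by
      constructor
      · intro w' hw'
        obtain ⟨w, hw, rfl⟩ := Finset.mem_image.1 hw'
        have h1 : (Monoid.Coprod.lift fb (FreeGroup.lift (fun i => QuotientGroup.mk' M (x i)))).comp
            μ = (QuotientGroup.mk' M).comp (Monoid.Coprod.lift f (FreeGroup.lift x)) := by
          apply Monoid.Coprod.hom_ext
          · ext a
            simp [μ, hfb, g]
          · ext i
            simp [μ]
        have h2 := DFunLike.congr_fun h1 w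
        rw [MonoidHom.comp_apply, MonoidHom.comp_apply, hxE w hw, map_one] at h2
        exact h2
      · intro w' hw'
        exact absurd hw' (Finset.notMem_empty _)⟩
  have key : ∀ w, Monoid.Coprod.lift (f.prod πA) (FreeGroup.lift (fun i => (x i, y i))) w =
      (Monoid.Coprod.lift f (FreeGroup.lift x) w,
        Monoid.Coprod.lift (MonoidHom.id Q) (FreeGroup.lift y) (μ w)) := by
    intro w
    have h1 : Monoid.Coprod.lift (f.prod πA) (FreeGroup.lift (fun i => (x i, y i))) =
        (Monoid.Coprod.lift f (FreeGroup.lift x)).prod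
          ((Monoid.Coprod.lift (MonoidHom.id Q) (FreeGroup.lift y)).comp μ) := by
      apply Monoid.Coprod.hom_ext
      · ext a <;> simp [μ]
      · ext i <;> simp [μ]
    rw [h1]; rfl
  refine hrec (H × Q) inferInstance (hH.prod hQ) (f.prod πA) (MonoidHom.snd H Q) ?_
    (fun _ => rfl) n E U ⟨fun i => (x i, y i), ?_, ?_⟩
  · intro a b hab
    exact hf (congrArg Prod.fst hab)
  · intro w hw
    rw [key, hxE w hw, hy (μ w) (Finset.mem_image_of_mem μ hw)]
    rfl
  · intro w hw h
    rw [key] at h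
    exact hxU w hw (congrArg Prod.fst h)

end

/-- there is a countable nontrivial existentially closed group -/
theorem exists_countable : ∃ (Q : Type) (_ : Group Q), LS Q ∧ AEC Q ∧ Countable Q ∧
    Nontrivial Q := by
  obtain ⟨Q, _, j, πQ, hQ, hj, _, hrec, hcount⟩ := exists_rec (Multiplicative ℤ) PUnit
    (1 : Multiplicative ℤ →* PUnit) (LS_of_solvable inferInstance)
  refine ⟨Q, inferInstance, hQ, ?_, hcount inferInstance inferInstance, ?_⟩
  · intro H _ hH f hf n E U h
    exact hrec H inferInstance hH f 1 hf (fun _ => rfl) n E U h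
  · exact hj.nontrivial

/-- the affine group of the line -/
structure Aff where
  a : ℝˣ
  b : ℝ

namespace Aff

@[ext] lemma ext' {x y : Aff} (h1 : x.a = y.a) (h2 : x.b = y.b) : x = y := by
  cases x; cases y; simp_all

instance : Group Aff where
  mul x y := ⟨x.a * y.a, x.b + x.a * y.b⟩
  one := ⟨1, 0⟩
  inv x := ⟨x.a⁻¹, -((x.a⁻¹ : ℝˣ) : ℝ) * x.b⟩
  mul_assoc x y z := Aff.ext' (mul_assoc _ _ _) (by
    change (x.b + x.a * y.b) + ((x.a * y.a : ℝˣ) : ℝ) * z.b = x.b + x.a * (y.b + y.a * z.b)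
    push_cast; ring)
  one_mul x := Aff.ext' (one_mul _) (by
    change (0 : ℝ) + ((1 : ℝˣ) : ℝ) * x.b = x.b
    simp)
  mul_one x := Aff.ext' (mul_one _) (by
    change x.b + (x.a : ℝ) * 0 = x.b
    simp)
  inv_mul_cancel x := Aff.ext' (inv_mul_cancel _) (by
    change -((x.a⁻¹ : ℝˣ) : ℝ) * x.b + ((x.a⁻¹ : ℝˣ) : ℝ) * x.b = 0
    ring)

lemma mul_a (x y : Aff) : (x * y).a = x.a * y.a := rfl
lemma mul_b (x y : Aff) : (x * y).b = x.b + x.a * y.b := rfl
lemma one_a : (1 : Aff).a = 1 := rfl
lemma one_b : (1 : Aff).b = 0 := rfl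
lemma inv_a (x : Aff) : (x⁻¹).a = x.a⁻¹ := rfl
lemma inv_b (x : Aff) : (x⁻¹).b = -((x.a⁻¹ : ℝˣ) : ℝ) * x.b := rfl

/-- translations -/
def tr : Multiplicative ℝ →* Aff where
  toFun t := ⟨1, Multiplicative.toAdd t⟩
  map_one' := rfl
  map_mul' s t := Aff.ext' (by simp [mul_a]) (by simp [mul_b])

/-- linear part -/
def lin : Aff →* ℝˣ where
  toFun x := x.a
  map_one' := rfl
  map_mul' _ _ := rfl

lemma solvable : Group.IsSolvable Aff := by
  refine Group.isSolvable_of_ker_le_range tr lin ?_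
  intro x hx
  exact ⟨Multiplicative.ofAdd x.b, Aff.ext' (Eq.symm hx) rfl⟩

/-- the unit translation -/
def b₀ : Aff := ⟨1, 1⟩

lemma b₀_ne : b₀ ≠ 1 := by
  intro h
  have := congrArg Aff.b h
  exact one_ne_zero (α := ℝ) this

lemma uncountable : ¬ Countable Aff := by
  intro h
  have h1 : Function.Injective (fun r : ℝ => (⟨1, r⟩ : Aff)) := fun r s hrs => congrArg Aff.b hrs
  have h2 : Countable ℝ := h1.countable
  exact not_countable h2

/-- every nontrivial normal subgroup contains the unit translation -/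
lemma mem_normal (N : Subgroup Aff) [hN : N.Normal] {x : Aff} (hx : x ∈ N) (hx1 : x ≠ 1) :
    b₀ ∈ N := by
  by_cases ha : x.a = 1
  · have hb : x.b ≠ 0 := by
      intro h
      exact hx1 (Aff.ext' ha h)
    have h1 := hN.conj_mem x hx ⟨(Units.mk0 x.b hb)⁻¹, 0⟩
    convert h1 using 1
    refine Aff.ext' ?_ ?_
    · simp [mul_a, inv_a, ha, b₀]
    · simp [mul_b, inv_b, mul_a, inv_a, ha, b₀, hb]
  · have hne : ((x.a : ℝ) - 1) ≠ 0 := by
      intro h
      apply ha
      apply Units.ext
      rw [Units.val_one]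
      linarith
    -- `x t x⁻¹ t⁻¹`
    have h1 : x * ((⟨1, ((x.a : ℝ) - 1)⁻¹⟩ : Aff) * x⁻¹ * (⟨1, ((x.a : ℝ) - 1)⁻¹⟩ : Aff)⁻¹) ∈ N :=
      mul_mem hx (hN.conj_mem _ (inv_mem hx) _)
    convert h1 using 1
    refine Aff.ext' ?_ ?_
    · simp [mul_a, inv_a, b₀]
    · simp only [mul_b, inv_b, mul_a, inv_a, b₀]
      have hxa : (x.a : ℝ) ≠ 0 := x.a.ne_zero
      push_cast
      field_simp
      ring

end Aff

/-- An existentially closed locally soluble group with a characteristic subgroup. -/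
theorem main : ∃ (G : Type) (_ : Group G), LS G ∧ AEC G ∧
    ∃ N : Subgroup G, N.Characteristic ∧ N ≠ ⊥ ∧ N ≠ ⊤ := by
  obtain ⟨Q, _, hQ, hQ', hQc, hQn⟩ := exists_countable
  have hAff : LS Aff := LS_of_solvable Aff.solvable
  obtain ⟨G, _, j, πG, hG, hj, hjπ, hrec, _⟩ := exists_rec (Aff × Q) Q (MonoidHom.snd Aff Q)
    (hAff.prod hQ)
  have hsurj : Function.Surjective πG := by
    intro q
    exact ⟨j (1, q), hjπ _⟩
  have hAEC : AEC G := aec_of_rec hQ' hQ hG hrec hsurj
  let S : Set (Subgroup G) := {M | ∃ _ : M.Normal, Countable (G ⧸ M)}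
  have hker : πG.ker ∈ S := by
    refine ⟨inferInstance, ?_⟩
    exact (QuotientGroup.kerLift_injective πG).countable
  refine ⟨G, inferInstance, hG, hAEC, sInf S, ?_, ?_, ?_⟩
  · rw [Subgroup.characteristic_iff_comap_le]
    intro φ x hx
    rw [Subgroup.mem_sInf]
    rintro M ⟨hMn, hMc⟩
    have h1 : M.map φ.toMonoidHom ∈ S := by
      have hn : (M.map φ.toMonoidHom).Normal := hMn.map _ φ.surjective
      refine ⟨hn, ?_⟩
      have h2 : Function.Surjective (QuotientGroup.map M (M.map φ.toMonoidHom) φ.toMonoidHom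
          (Subgroup.le_comap_map _ _)) := by
        intro y
        obtain ⟨y, rfl⟩ := QuotientGroup.mk_surjective y
        obtain ⟨z, rfl⟩ := φ.surjective y
        exact ⟨(z : G ⧸ M), rfl⟩
      exact h2.countable
    have h2 : φ x ∈ M.map φ.toMonoidHom := (Subgroup.mem_sInf.1 hx) _ h1
    obtain ⟨y, hy, hyx⟩ := h2
    have : y = x := φ.injective hyx
    rwa [← this]
  · intro hbot
    have h1 : j (Aff.b₀, 1) ∈ sInf S := by
      rw [Subgroup.mem_sInf]
      rintro M ⟨hMn, hMc⟩
      let ψ : Aff →* G ⧸ M := (QuotientGroup.mk' M).comp (j.comp (MonoidHom.inl Aff Q))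
      have h2 : ¬ Function.Injective ψ := fun h => Aff.uncountable h.countable
      rw [injective_iff_map_eq_one] at h2
      push Not at h2
      obtain ⟨x, hx, hx1⟩ := h2
      have h3 : Aff.b₀ ∈ ψ.ker := Aff.mem_normal ψ.ker hx hx1
      have h4 : QuotientGroup.mk' M (j (Aff.b₀, 1)) = 1 := h3
      rwa [QuotientGroup.mk'_apply, QuotientGroup.eq_one_iff] at h4
    rw [hbot, Subgroup.mem_bot] at h1
    have h2 : ((Aff.b₀, 1) : Aff × Q) = 1 := hj (by rw [h1, map_one])
    exact Aff.b₀_ne (congrArg Prod.fst h2)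
  · intro htop
    have h1 : sInf S ≤ πG.ker := sInf_le hker
    rw [htop, top_le_iff] at h1
    obtain ⟨q, hq⟩ := exists_ne (1 : Q)
    obtain ⟨g, rfl⟩ := hsurj q
    apply hq
    have : g ∈ πG.ker := by rw [h1]; trivial
    exact this

end Pool.Agent.H88R2.EC
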