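import Pool.Agent.H88R2.EC.Basic

set_option autoImplicit false
set_option linter.unusedSectionVars false

/-! Existentially closed extensions over a fixed quotient, by Zorn's lemma. -/

namespace Pool.Agent.H88R2.EC

open Subgroup

open scoped commutatorElement

/-- systems: equations, inequations, prescribed images -/
abbrev Sys (Z Q : Type) : Type :=
  Finset (FreeGroup (Z ⊕ ℕ)) × Finset (FreeGroup (Z ⊕ ℕ)) × List Q

section

variable {G Q Y : Type} [Group G] [Group Q] (π : G →* Q) (code : Sys (G ⊕ Y) Q × ℕ → Y)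

/-- the generators that are used -/
def gen (P : Set (Sys (G ⊕ Y) Q)) : Set (G ⊕ Y) :=
  {z | (∃ g, z = Sum.inl g) ∨ ∃ s ∈ P, ∃ i, z = Sum.inr (code (s, i))}

/-- the subgroup generated by them -/
def FP (P : Set (Sys (G ⊕ Y) Q)) : Subgroup (FreeGroup (G ⊕ Y)) :=
  closure (FreeGroup.of '' gen code P)

/-- the map to `Q` -/
noncomputable def rho : FreeGroup (G ⊕ Y) →* Q :=
  FreeGroup.lift (Sum.elim π (Function.extend code (fun p => p.1.2.2.getD p.2 1) (fun _ => 1)))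

/-- substitution of the dedicated variables -/
def sub (s : Sys (G ⊕ Y) Q) : FreeGroup ((G ⊕ Y) ⊕ ℕ) →* FreeGroup (G ⊕ Y) :=
  FreeGroup.lift (Sum.elim FreeGroup.of (fun i => FreeGroup.of (Sum.inr (code (s, i)))))

/-- valid pairs -/
structure Valid (P : Set (Sys (G ⊕ Y) Q)) (R : Subgroup (FreeGroup (G ⊕ Y))) : Prop where
  le : R ≤ FP code P
  nrm : ∀ w ∈ FP code P, ∀ r ∈ R, w * r * w⁻¹ ∈ R
  base : ∀ w : FreeGroup G, FreeGroup.map Sum.inl w ∈ R ↔ FreeGroup.lift (id : G → G) w = 1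
  loc : ∀ S : Finset (FreeGroup (G ⊕ Y)), (S : Set (FreeGroup (G ⊕ Y))) ⊆ FP code P →
    ∃ n, dd (closure (S : Set (FreeGroup (G ⊕ Y)))) n ≤ R
  ker : ∀ r ∈ R, rho π code r = 1
  sol : ∀ s ∈ P, (∀ e ∈ s.1, sub code s e ∈ R) ∧
    (∀ u ∈ s.2.1, sub code s u ∈ FP code P ∧ sub code s u ∉ R)

/-- states -/
structure State where
  P : Set (Sys (G ⊕ Y) Q)
  R : Subgroup (FreeGroup (G ⊕ Y))
  valid : Valid π code P R

variable {π code}

lemma gen_mono {P P' : Set (Sys (G ⊕ Y) Q)} (h : P ⊆ P') : gen code P ⊆ gen code P' := by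
  rintro z (hz | ⟨s, hs, i, rfl⟩)
  · exact Or.inl hz
  · exact Or.inr ⟨s, h hs, i, rfl⟩

lemma FP_mono {P P' : Set (Sys (G ⊕ Y) Q)} (h : P ⊆ P') : FP code P ≤ FP code P' :=
  closure_mono (Set.image_mono (gen_mono h))

instance : Preorder (State π code) where
  le x y := x.P ⊆ y.P ∧ ∀ w ∈ FP code x.P, w ∈ y.R ↔ w ∈ x.R
  le_refl x := ⟨le_rfl, fun _ _ => Iff.rfl⟩
  le_trans x y z hxy hyz := ⟨hxy.1.trans hyz.1, fun w hw =>
    (hyz.2 w (FP_mono hxy.1 hw)).trans (hxy.2 w hw)⟩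

lemma State.le_def {x y : State π code} : x ≤ y ↔ x.P ⊆ y.P ∧ ∀ w ∈ FP code x.P, w ∈ y.R ↔ w ∈ x.R :=
  Iff.rfl

lemma State.R_le {x y : State π code} (h : x ≤ y) : x.R ≤ y.R := fun w hw =>
  (h.2 w (x.valid.le hw)).2 hw

lemma FP_empty : FP code (∅ : Set (Sys (G ⊕ Y) Q)) = (FreeGroup.map (Sum.inl : G → G ⊕ Y)).range := by
  apply le_antisymm
  · rw [FP, closure_le]
    rintro _ ⟨z, hz, rfl⟩
    rcases hz with ⟨g, rfl⟩ | ⟨s, hs, i, rfl⟩
    · exact ⟨FreeGroup.of g, by simp⟩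
    · exact absurd hs (Set.notMem_empty _)
  · rintro _ ⟨w, rfl⟩
    have h : (FreeGroup.map (Sum.inl : G → G ⊕ Y)).range = closure (Set.range (fun g : G =>
        FreeGroup.of (Sum.inl g : G ⊕ Y))) := by
      rw [MonoidHom.range_eq_map, ← FreeGroup.closure_range_of, MonoidHom.map_closure,
        ← Set.range_comp]
      congr 1
    have h2 : FreeGroup.map (Sum.inl : G → G ⊕ Y) w ∈ (FreeGroup.map (Sum.inl : G → G ⊕ Y)).range :=
      ⟨w, rfl⟩
    rw [h] at h2
    refine closure_mono ?_ h2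
    rintro _ ⟨g, rfl⟩
    exact ⟨Sum.inl g, Or.inl ⟨g, rfl⟩, rfl⟩

lemma inl_mem_FP (P : Set (Sys (G ⊕ Y) Q)) (w : FreeGroup G) :
    FreeGroup.map (Sum.inl : G → G ⊕ Y) w ∈ FP code P := by
  have : FreeGroup.map (Sum.inl : G → G ⊕ Y) w ∈ FP code (∅ : Set (Sys (G ⊕ Y) Q)) := by
    rw [FP_empty]; exact ⟨w, rfl⟩
  exact FP_mono (Set.empty_subset _) this

lemma map_inl_injective : Function.Injective (FreeGroup.map (Sum.inl : G → G ⊕ Y)) := by
  intro a b hab
  have h : ∀ w : FreeGroup G, FreeGroup.lift (Sum.elim FreeGroup.of (fun _ : Y => 1))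
      (FreeGroup.map (Sum.inl : G → G ⊕ Y) w) = w := by
    intro w
    have : (FreeGroup.lift (Sum.elim FreeGroup.of (fun _ : Y => (1 : FreeGroup G)))).comp
        (FreeGroup.map (Sum.inl : G → G ⊕ Y)) = MonoidHom.id _ := by
      ext g; simp
    exact DFunLike.congr_fun this w
  rw [← h a, ← h b, hab]

lemma rho_inl (w : FreeGroup G) : rho π code (FreeGroup.map Sum.inl w) =
    π (FreeGroup.lift (id : G → G) w) := by
  have : (rho π code).comp (FreeGroup.map (Sum.inl : G → G ⊕ Y)) =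
      π.comp (FreeGroup.lift (id : G → G)) := by
    ext g; simp [rho]
  exact DFunLike.congr_fun this w

lemma rho_code (hc : Function.Injective code) (s : Sys (G ⊕ Y) Q) (i : ℕ) :
    rho π code (FreeGroup.of (Sum.inr (code (s, i)))) = s.2.2.getD i 1 := by
  simp [rho, hc.extend_apply]

/-- the initial state -/
lemma exists_base (hG : LS G) : Nonempty (State π code) := by
  classical
  set R₀ : Subgroup (FreeGroup (G ⊕ Y)) :=
    (FreeGroup.lift (id : G → G)).ker.map (FreeGroup.map (Sum.inl : G → G ⊕ Y)) with hR₀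
  have hbase : ∀ w : FreeGroup G, FreeGroup.map (Sum.inl : G → G ⊕ Y) w ∈ R₀ ↔
      FreeGroup.lift (id : G → G) w = 1 := by
    intro w
    rw [hR₀, Subgroup.mem_map_iff_mem map_inl_injective, MonoidHom.mem_ker]
  have hle : R₀ ≤ FP code ∅ := by
    rintro _ ⟨w, _, rfl⟩
    exact inl_mem_FP _ w
  refine ⟨⟨∅, R₀, ?_⟩⟩
  refine { le := hle, nrm := ?_, base := hbase, loc := ?_, ker := ?_, sol := ?_ }
  · intro w hw r hr
    rw [FP_empty] at hw
    obtain ⟨w, rfl⟩ := hw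
    obtain ⟨r, hr, rfl⟩ := hr
    rw [← map_mul, ← map_inv, ← map_mul, hbase]
    have : FreeGroup.lift (id : G → G) r = 1 := hr
    rw [map_mul, map_mul, this, mul_one, ← map_mul, mul_inv_cancel, map_one]
  · intro S hS
    rw [LS_iff] at hG
    obtain ⟨T, hT⟩ : ∃ T : Finset (FreeGroup G), T.image (FreeGroup.map (Sum.inl : G → G ⊕ Y)) = S := by
      rw [FP_empty] at hS
      have : (S : Set (FreeGroup (G ⊕ Y))) ⊆
          (FreeGroup.map (Sum.inl : G → G ⊕ Y)) '' Set.univ := by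
        intro x hx
        obtain ⟨w, hw⟩ := hS hx
        exact ⟨w, trivial, hw⟩
      obtain ⟨T, _, hT⟩ := Finset.subset_set_image_iff.1 this
      exact ⟨T, hT⟩
    subst hT
    obtain ⟨n, hn⟩ := hG (T.image (FreeGroup.lift (id : G → G)))
    refine ⟨n, ?_⟩
    rw [Finset.coe_image, ← MonoidHom.map_closure, ← dd_map]
    rintro _ ⟨w, hw, rfl⟩
    rw [hbase]
    rw [Finset.coe_image, ← MonoidHom.map_closure, ← dd_map] at hn
    have : FreeGroup.lift (id : G → G) w ∈ (dd (closure (T : Set (FreeGroup G))) n).map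
      (FreeGroup.lift (id : G → G)) := ⟨w, hw, rfl⟩
    rw [hn, Subgroup.mem_bot] at this
    exact this
  · rintro _ ⟨r, hr, rfl⟩
    have : FreeGroup.lift (id : G → G) r = 1 := hr
    rw [rho_inl, this, map_one]
  · intro s hs
    exact absurd hs (Set.notMem_empty _)

/-- elements of the union of a chain -/
lemma exists_of_chain {c : Set (State π code)} (hc : IsChain (· ≤ ·) c) (hne : c.Nonempty)
    {w : FreeGroup (G ⊕ Y)} (hw : w ∈ FP code (⋃ x ∈ c, State.P x)) :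
    ∃ x ∈ c, w ∈ FP code x.P := by
  refine closure_induction (p := fun w _ => ∃ x ∈ c, w ∈ FP code x.P) ?_ ?_ ?_ ?_ hw
  · rintro _ ⟨z, hz, rfl⟩
    rcases hz with ⟨g, rfl⟩ | ⟨s, hs, i, rfl⟩
    · obtain ⟨x, hx⟩ := hne
      exact ⟨x, hx, subset_closure ⟨_, Or.inl ⟨g, rfl⟩, rfl⟩⟩
    · simp only [Set.mem_iUnion, exists_prop] at hs
      obtain ⟨x, hx, hs⟩ := hs
      exact ⟨x, hx, subset_closure ⟨_, Or.inr ⟨s, hs, i, rfl⟩, rfl⟩⟩
  · obtain ⟨x, hx⟩ := hne
    exact ⟨x, hx, one_mem _⟩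
  · rintro a b _ _ ⟨x, hx, ha⟩ ⟨y, hy, hb⟩
    rcases hc.total hx hy with h | h
    · exact ⟨y, hy, mul_mem (FP_mono h.1 ha) hb⟩
    · exact ⟨x, hx, mul_mem ha (FP_mono h.1 hb)⟩
  · rintro a _ ⟨x, hx, ha⟩
    exact ⟨x, hx, inv_mem ha⟩

lemma exists_of_chain_finset {c : Set (State π code)} (hc : IsChain (· ≤ ·) c)
    (hne : c.Nonempty) (S : Finset (FreeGroup (G ⊕ Y)))
    (hS : (S : Set (FreeGroup (G ⊕ Y))) ⊆ FP code (⋃ x ∈ c, State.P x)) :
    ∃ x ∈ c, (S : Set (FreeGroup (G ⊕ Y))) ⊆ FP code x.P := by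
  classical
  induction S using Finset.induction_on with
  | empty =>
    obtain ⟨x, hx⟩ := hne
    exact ⟨x, hx, by simp⟩
  | insert a S _ ih =>
    rw [Finset.coe_insert, Set.insert_subset_iff] at hS
    obtain ⟨x, hx, hSx⟩ := ih hS.2
    obtain ⟨y, hy, hay⟩ := exists_of_chain hc hne hS.1
    rcases hc.total hx hy with h | h
    · refine ⟨y, hy, ?_⟩
      rw [Finset.coe_insert, Set.insert_subset_iff]
      exact ⟨hay, hSx.trans (FP_mono h.1)⟩
    · refine ⟨x, hx, ?_⟩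
      rw [Finset.coe_insert, Set.insert_subset_iff]
      exact ⟨FP_mono h.1 hay, hSx⟩

/-- chains have upper bounds -/
lemma bddAbove_of_chain (hG : LS G) (c : Set (State π code)) (hc : IsChain (· ≤ ·) c) :
    BddAbove c := by
  rcases c.eq_empty_or_nonempty with rfl | hne
  · obtain ⟨x⟩ := exists_base (π := π) (code := code) hG
    exact ⟨x, fun y hy => absurd hy (Set.notMem_empty _)⟩
  have hdir : DirectedOn (· ≤ ·) ((fun x : State π code => x.R) '' c) := by
    rintro _ ⟨x, hx, rfl⟩ _ ⟨y, hy, rfl⟩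
    rcases hc.total hx hy with h | h
    · exact ⟨y.R, ⟨y, hy, rfl⟩, State.R_le h, le_rfl⟩
    · exact ⟨x.R, ⟨x, hx, rfl⟩, le_rfl, State.R_le h⟩
  set R : Subgroup (FreeGroup (G ⊕ Y)) := sSup ((fun x : State π code => x.R) '' c) with hR
  have hmem : ∀ w, w ∈ R ↔ ∃ x ∈ c, w ∈ State.R x := by
    intro w
    rw [hR, Subgroup.mem_sSup_of_directedOn (hne.image _) hdir]
    simp
  have hFP : ∀ x ∈ c, FP code x.P ≤ FP code (⋃ x ∈ c, State.P x) := fun x hx =>
    FP_mono (Set.subset_biUnion_of_mem (u := fun x => State.P x) hx)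
  have hiff : ∀ x ∈ c, ∀ w ∈ FP code x.P, w ∈ R ↔ w ∈ x.R := by
    intro x hx w hw
    rw [hmem]
    constructor
    · rintro ⟨y, hy, hwy⟩
      rcases hc.total hx hy with h | h
      · exact (h.2 w hw).1 hwy
      · exact State.R_le h hwy
    · intro h
      exact ⟨x, hx, h⟩
  refine ⟨⟨⋃ x ∈ c, State.P x, R, ?_⟩, ?_⟩
  · refine { le := ?_, nrm := ?_, base := ?_, loc := ?_, ker := ?_, sol := ?_ }
    · intro w hw
      obtain ⟨x, hx, hw⟩ := (hmem w).1 hw
      exact hFP x hx (x.valid.le hw)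
    · intro w hw r hr
      obtain ⟨x, hx, hw⟩ := exists_of_chain hc hne hw
      obtain ⟨y, hy, hr⟩ := (hmem r).1 hr
      rcases hc.total hx hy with h | h
      · exact (hmem _).2 ⟨y, hy, y.valid.nrm w (FP_mono h.1 hw) r hr⟩
      · exact (hmem _).2 ⟨x, hx, x.valid.nrm w hw r (State.R_le h hr)⟩
    · intro w
      obtain ⟨x, hx⟩ := hne
      rw [hiff x hx _ (inl_mem_FP _ _)]
      exact x.valid.base w
    · intro S hS
      obtain ⟨x, hx, hS⟩ := exists_of_chain_finset hc hne S hS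
      obtain ⟨n, hn⟩ := x.valid.loc S hS
      exact ⟨n, hn.trans (fun w hw => (hmem w).2 ⟨x, hx, hw⟩)⟩
    · intro r hr
      obtain ⟨x, hx, hr⟩ := (hmem r).1 hr
      exact x.valid.ker r hr
    · intro s hs
      simp only [Set.mem_iUnion, exists_prop] at hs
      obtain ⟨x, hx, hs⟩ := hs
      obtain ⟨h1, h2⟩ := x.valid.sol s hs
      refine ⟨fun e he => (hmem _).2 ⟨x, hx, h1 e he⟩, fun u hu => ?_⟩
      obtain ⟨h3, h4⟩ := h2 u hu
      exact ⟨hFP x hx h3, fun h => h4 ((hiff x hx _ h3).1 h)⟩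
  · intro x hx
    exact ⟨Set.subset_biUnion_of_mem (u := fun x => State.P x) hx, hiff x hx⟩

/-- words whose constants are used generators -/
def Wlet (code : Sys (G ⊕ Y) Q × ℕ → Y) (P : Set (Sys (G ⊕ Y) Q)) :
    Subgroup (FreeGroup ((G ⊕ Y) ⊕ ℕ)) :=
  closure (FreeGroup.of '' {z | (∃ a ∈ gen code P, z = Sum.inl a) ∨ ∃ i, z = Sum.inr i})

/-- homs that agree on generators agree -/
lemma eq_on_closure {A B : Type} [Group A] [Group B] {f g : A →* B} {S : Set A}
    (h : ∀ s ∈ S, f s = g s) {w : A} (hw : w ∈ closure S) : f w = g w := by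
  have : closure S ≤ f.eqLocus g := by
    rw [closure_le]; exact h
  exact this hw

/-- the extension step -/
lemma exists_ext (hc : Function.Injective code) (x : State π code) (s : Sys (G ⊕ Y) Q)
    (hs : s ∉ x.P) (hl1 : ∀ e ∈ s.1, e ∈ Wlet code x.P) (hl2 : ∀ u ∈ s.2.1, u ∈ Wlet code x.P)
    (H : Type) [Group H] (hH : LS H) (f : FreeGroup (G ⊕ Y) →* H) (ρ : H →* Q)
    (hf : ∀ w ∈ FP code x.P, f w = 1 ↔ w ∈ x.R) (hρ : ∀ w ∈ FP code x.P, ρ (f w) = rho π code w)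
    (a : ℕ → H) (ha : ∀ i, ρ (a i) = s.2.2.getD i 1)
    (he : ∀ e ∈ s.1, FreeGroup.lift (Sum.elim (fun z => f (FreeGroup.of z)) a) e = 1)
    (hu : ∀ u ∈ s.2.1, FreeGroup.lift (Sum.elim (fun z => f (FreeGroup.of z)) a) u ≠ 1) :
    ∃ y : State π code, x ≤ y ∧ s ∈ y.P := by
  classical
  have hcs : Function.Injective (fun i : ℕ => (Sum.inr (code (s, i)) : G ⊕ Y)) := by
    intro i j hij
    have := hc (Sum.inr_injective hij)
    exact (Prod.mk.inj this).2
  have hnot : ∀ i, (Sum.inr (code (s, i)) : G ⊕ Y) ∉ gen code x.P := by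
    rintro i (⟨g, hg⟩ | ⟨t, ht, j, htj⟩)
    · exact absurd hg (by simp)
    · have := hc (Sum.inr_injective htj)
      rw [(Prod.mk.inj this).1] at hs
      exact hs ht
  obtain ⟨f', hf'⟩ : ∃ f' : FreeGroup (G ⊕ Y) →* H, f' = FreeGroup.lift (fun z =>
      if z ∈ gen code x.P then f (FreeGroup.of z)
      else Function.extend (fun i : ℕ => (Sum.inr (code (s, i)) : G ⊕ Y)) a (fun _ => 1) z) :=
    ⟨_, rfl⟩
  have hf1 : ∀ z ∈ gen code x.P, f' (FreeGroup.of z) = f (FreeGroup.of z) := by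
    intro z hz
    rw [hf', FreeGroup.lift_apply_of, if_pos hz]
  have hf2 : ∀ i, f' (FreeGroup.of (Sum.inr (code (s, i)))) = a i := by
    intro i
    rw [hf', FreeGroup.lift_apply_of, if_neg (hnot i)]
    exact hcs.extend_apply a _ i
  have hff : ∀ w ∈ FP code x.P, f' w = f w := by
    intro w hw
    refine eq_on_closure ?_ hw
    rintro _ ⟨z, hz, rfl⟩
    exact hf1 z hz
  set P' : Set (Sys (G ⊕ Y) Q) := insert s x.P with hP'
  have hsub : x.P ⊆ P' := Set.subset_insert _ _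
  have hρ' : ∀ w ∈ FP code P', ρ (f' w) = rho π code w := by
    intro w hw
    refine eq_on_closure (f := ρ.comp f') ?_ hw
    rintro _ ⟨z, hz, rfl⟩
    rw [MonoidHom.comp_apply]
    by_cases h : z ∈ gen code x.P
    · rw [hf1 z h]
      exact hρ _ (subset_closure ⟨z, h, rfl⟩)
    · rcases hz with ⟨g, rfl⟩ | ⟨t, ht, i, rfl⟩
      · exact absurd (Or.inl ⟨g, rfl⟩) h
      · rcases Set.mem_insert_iff.1 ht with rfl | ht
        · rw [hf2, ha, rho_code hc]
        · exact absurd (Or.inr ⟨t, ht, i, rfl⟩) h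
  have hR' : ∀ w, w ∈ f'.ker ⊓ FP code P' ↔ f' w = 1 ∧ w ∈ FP code P' := fun w => Iff.rfl
  have hiff : ∀ w ∈ FP code x.P, w ∈ f'.ker ⊓ FP code P' ↔ w ∈ x.R := by
    intro w hw
    rw [hR', hff w hw, hf w hw]
    exact ⟨fun h => h.1, fun h => ⟨h, FP_mono hsub hw⟩⟩
  have hsubW : ∀ w ∈ Wlet code x.P, sub code s w ∈ FP code P' ∧
      f' (sub code s w) = FreeGroup.lift (Sum.elim (fun z => f (FreeGroup.of z)) a) w := by
    intro w hw
    constructor
    · have : Wlet code x.P ≤ (FP code P').comap (sub code s) := by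
        rw [Wlet, closure_le]
        rintro _ ⟨z, hz | ⟨i, rfl⟩, rfl⟩
        · obtain ⟨b, hb, rfl⟩ := hz
          change sub code s _ ∈ FP code P'
          rw [sub, FreeGroup.lift_apply_of]
          exact subset_closure ⟨b, gen_mono hsub hb, rfl⟩
        · change sub code s _ ∈ FP code P'
          rw [sub, FreeGroup.lift_apply_of]
          exact subset_closure ⟨_, Or.inr ⟨s, Set.mem_insert _ _, i, rfl⟩, rfl⟩
      exact this hw
    · refine eq_on_closure (f := f'.comp (sub code s)) ?_ hw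
      rintro _ ⟨z, hz | ⟨i, rfl⟩, rfl⟩
      · obtain ⟨b, hb, rfl⟩ := hz
        rw [MonoidHom.comp_apply, sub, FreeGroup.lift_apply_of, FreeGroup.lift_apply_of]
        exact hf1 b hb
      · rw [MonoidHom.comp_apply, sub, FreeGroup.lift_apply_of, FreeGroup.lift_apply_of]
        exact hf2 i
  refine ⟨⟨P', f'.ker ⊓ FP code P', ?_⟩, ⟨hsub, hiff⟩, Set.mem_insert _ _⟩
  refine { le := inf_le_right, nrm := ?_, base := ?_, loc := ?_, ker := ?_, sol := ?_ }
  · rintro w hw r ⟨hr1, hr2⟩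
    have hr2' : r ∈ FP code P' := hr2
    refine ⟨?_, (FP code P').mul_mem ((FP code P').mul_mem hw hr2') ((FP code P').inv_mem hw)⟩
    have : f' r = 1 := hr1
    change f' _ = 1
    rw [map_mul, map_mul, this, mul_one, ← map_mul, mul_inv_cancel, map_one]
  · intro w
    rw [hiff _ (inl_mem_FP _ _)]
    exact x.valid.base w
  · intro S hS
    rw [LS_iff] at hH
    obtain ⟨n, hn⟩ := hH (S.image f')
    refine ⟨n, le_inf ?_ ((dd_le _ _).trans ((closure_le _).2 hS))⟩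
    rw [Finset.coe_image, ← MonoidHom.map_closure, ← dd_map] at hn
    exact (Subgroup.map_eq_bot_iff _).1 hn
  · rintro r ⟨hr1, hr2⟩
    have : f' r = 1 := hr1
    rw [← hρ' r hr2, this, map_one]
  · intro t ht
    rcases Set.mem_insert_iff.1 ht with rfl | ht
    · refine ⟨fun e he' => ?_, fun u hu' => ?_⟩
      · obtain ⟨h1, h2⟩ := hsubW e (hl1 e he')
        exact ⟨h2.trans (he e he'), h1⟩
      · obtain ⟨h1, h2⟩ := hsubW u (hl2 u hu')
        exact ⟨h1, fun h => hu u hu' (h2.symm.trans h.1)⟩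
    · obtain ⟨h1, h2⟩ := x.valid.sol t ht
      refine ⟨fun e he' => (hiff _ (x.valid.le (h1 e he'))).2 (h1 e he'), fun u hu' => ?_⟩
      obtain ⟨h3, h4⟩ := h2 u hu'
      exact ⟨FP_mono hsub h3, fun h => h4 ((hiff _ h3).1 h)⟩

end

end Pool.Agent.H88R2.EC
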